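import Mathlib
set_option autoImplicit false
set_option linter.unusedSectionVars false
set_option linter.unusedVariables false

/-! Boundaries, cuts and feasible integer flows in finite multigraphs given by tails `a` and heads
`b`. -/

namespace Pool.Agent.Lib.MP_5ee2e8_co_h71

open Finset

variable {V E : Type} [Fintype V] [DecidableEq V] [Fintype E] [DecidableEq E]

/-- the boundary of `x` at the vertex `v`: inflow minus outflow -/
def bdry {R : Type} [AddCommGroup R] (a b : E → V) (x : E → R) (v : V) : R :=
  ∑ e, ((if b e = v then x e else 0) - (if a e = v then x e else 0))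

lemma bdry_zero {R : Type} [AddCommGroup R] (a b : E → V) (v : V) :
    bdry a b (fun _ => (0 : R)) v = 0 := by
  simp [bdry]

lemma bdry_add {R : Type} [AddCommGroup R] (a b : E → V) (x y : E → R) (v : V) :
    bdry a b (fun e => x e + y e) v = bdry a b x v + bdry a b y v := by
  unfold bdry
  rw [← Finset.sum_add_distrib]
  refine Finset.sum_congr rfl fun e _ => ?_
  split_ifs <;> simp [neg_add, add_comm]

lemma bdry_neg {R : Type} [AddCommGroup R] (a b : E → V) (x : E → R) (v : V) :
    bdry a b (fun e => - x e) v = - bdry a b x v := by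
  unfold bdry
  rw [← Finset.sum_neg_distrib]
  refine Finset.sum_congr rfl fun e _ => ?_
  split_ifs <;> simp

lemma bdry_sub {R : Type} [AddCommGroup R] (a b : E → V) (x y : E → R) (v : V) :
    bdry a b (fun e => x e - y e) v = bdry a b x v - bdry a b y v := by
  unfold bdry
  rw [← Finset.sum_sub_distrib]
  refine Finset.sum_congr rfl fun e _ => ?_
  split_ifs <;> simp [sub_eq_add_neg, add_comm]

lemma bdry_hom {R S : Type} [AddCommGroup R] [AddCommGroup S] (F : R →+ S) (a b : E → V)
    (x : E → R) (v : V) :
    bdry a b (fun e => F (x e)) v = F (bdry a b x v) := by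
  unfold bdry
  rw [map_sum]
  refine Finset.sum_congr rfl fun e _ => ?_
  split_ifs <;> simp

lemma bdry_mul {R : Type} [Ring R] (c : R) (a b : E → V) (x : E → R) (v : V) :
    bdry a b (fun e => c * x e) v = c * bdry a b x v := by
  have := bdry_hom (AddMonoidHom.mulLeft c) a b x v
  simpa using this

lemma bdry_sum {R : Type} [AddCommGroup R] {ι : Type} (s : Finset ι) (a b : E → V)
    (x : ι → E → R) (v : V) :
    bdry a b (fun e => ∑ i ∈ s, x i e) v = ∑ i ∈ s, bdry a b (x i) v := by
  classical
  induction s using Finset.induction_on with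
  | empty => simp [bdry_zero]
  | insert i s hi ih =>
    rw [Finset.sum_insert hi, ← ih, ← bdry_add]
    congr 1
    funext e
    rw [Finset.sum_insert hi]

/-- the boundary of one edge -/
lemma bdry_single {R : Type} [AddCommGroup R] (a b : E → V) (e₀ : E) (c : R) (v : V) :
    bdry a b (fun e => if e = e₀ then c else 0) v =
      (if b e₀ = v then c else 0) - (if a e₀ = v then c else 0) := by
  unfold bdry
  rw [Finset.sum_eq_single e₀]
  · simp
  · intro e _ he
    simp [he]
  · intro h
    exact absurd (Finset.mem_univ _) h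

/-- the cut formula -/
lemma cut {R : Type} [AddCommGroup R] (a b : E → V) (x : E → R) (S : Finset V) :
    ∑ v ∈ S, bdry a b x v =
      ∑ e, ((if b e ∈ S then x e else 0) - (if a e ∈ S then x e else 0)) := by
  unfold bdry
  rw [Finset.sum_comm]
  refine Finset.sum_congr rfl fun e _ => ?_
  rw [Finset.sum_sub_distrib, Finset.sum_ite_eq, Finset.sum_ite_eq]

lemma cut_univ {R : Type} [AddCommGroup R] (a b : E → V) (x : E → R) :
    ∑ v, bdry a b x v = 0 := by
  rw [cut]
  simp

/-- changing one edge value -/
lemma bdry_update (a b : E → V) (x : E → ℤ) (e₀ : E) (c : ℤ) (v : V) :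
    bdry a b (fun e => x e + if e = e₀ then c else 0) v =
      bdry a b x v + ((if b e₀ = v then c else 0) - (if a e₀ = v then c else 0)) := by
  rw [bdry_add, bdry_single]

section feasible

variable (a b : E → V) (l u : E → ℤ) (β : V → ℤ)

/-- feasible -/
def Feas (g : E → ℤ) : Prop := ∀ e, l e ≤ g e ∧ g e ≤ u e

/-- the total error -/
def Phi (g : E → ℤ) : ℕ := ∑ v, (bdry a b g v - β v).natAbs

/-- one unit can be moved from `s` to `v` -/
def RStep (g : E → ℤ) (v s : V) : Prop :=
  ∃ e, (b e = v ∧ a e = s ∧ g e < u e) ∨ (a e = v ∧ b e = s ∧ l e < g e)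

/-- a walk of length `k` of steps -/
def RPath (g : E → ℤ) : ℕ → V → V → Prop
  | 0, v, t => v = t
  | k + 1, v, t => ∃ s, RStep a b l u g v s ∧ RPath g k s t

lemma rpath_snoc (g : E → ℤ) (k : ℕ) : ∀ v s t, RPath a b l u g k v s → RStep a b l u g s t →
    RPath a b l u g (k + 1) v t := by
  induction k with
  | zero =>
    intro v s t h1 h2
    simp only [RPath] at h1
    subst h1
    exact ⟨t, h2, rfl⟩
  | succ k ih =>
    intro v s t h1 h2
    obtain ⟨r, hr, h3⟩ := h1
    exact ⟨r, hr, ih r s t h3 h2⟩

/-- a walk not going through `v` survives a change on an edge at `v` -/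
lemma rpath_keep (g g' : E → ℤ) (v t : V) (hg : ∀ e, a e ≠ v → b e ≠ v → g' e = g e) (j : ℕ) :
    ∀ s, RPath a b l u g j s t → (∀ i ≤ j, ¬ RPath a b l u g i v t) →
      RPath a b l u g' j s t := by
  induction j with
  | zero =>
    intro s h _
    exact h
  | succ j ih =>
    intro s h hn
    obtain ⟨s', h1, h2⟩ := h
    have hs : s ≠ v := by
      rintro rfl
      exact hn (j + 1) le_rfl ⟨s', h1, h2⟩
    have hs' : s' ≠ v := by
      rintro rfl
      exact hn j (Nat.le_succ j) h2
    refine ⟨s', ?_, ih s' h2 fun i hi => hn i (hi.trans (Nat.le_succ j))⟩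
    obtain ⟨e, h3 | h3⟩ := h1
    · obtain ⟨h4, h5, h6⟩ := h3
      refine ⟨e, Or.inl ⟨h4, h5, ?_⟩⟩
      rw [hg e (by rw [h5]; exact hs') (by rw [h4]; exact hs)]
      exact h6
    · obtain ⟨h4, h5, h6⟩ := h3
      refine ⟨e, Or.inr ⟨h4, h5, ?_⟩⟩
      rw [hg e (by rw [h4]; exact hs) (by rw [h5]; exact hs')]
      exact h6

/-- the result of pushing along one step -/
lemma push (g : E → ℤ) (hg : Feas l u g) (v s : V) (hs : RStep a b l u g v s) :
    ∃ g', Feas l u g' ∧ (∀ e, a e ≠ v → b e ≠ v → g' e = g e) ∧
      ∀ w, bdry a b g' w = bdry a b g w + ((if v = w then 1 else 0) - (if s = w then 1 else 0)) := by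
  obtain ⟨e, h | h⟩ := hs
  · obtain ⟨h1, h2, h3⟩ := h
    refine ⟨fun f => g f + if f = e then 1 else 0, ?_, ?_, ?_⟩
    · intro f
      have := hg f
      by_cases hf : f = e
      · subst hf
        simp
        omega
      · simp [hf]
        exact this
    · intro f hf1 hf2
      have : f ≠ e := by
        rintro rfl
        exact hf2 h1
      simp [this]
    · intro w
      rw [bdry_update, h1, h2]
  · obtain ⟨h1, h2, h3⟩ := h
    refine ⟨fun f => g f + if f = e then -1 else 0, ?_, ?_, ?_⟩
    · intro f
      have := hg f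
      by_cases hf : f = e
      · subst hf
        simp
        omega
      · simp [hf]
        exact this
    · intro f hf1 hf2
      have : f ≠ e := by
        rintro rfl
        exact hf1 h1
      simp [this]
    · intro w
      rw [bdry_update, h1, h2]
      split_ifs <;> ring

/-- the effect of a push on the error -/
lemma phi_push (g g' : E → ℤ) (v s : V) (hvs : v ≠ s)
    (h : ∀ w, bdry a b g' w = bdry a b g w + ((if v = w then 1 else 0) - (if s = w then 1 else 0)))
    (hv : bdry a b g v < β v) :
    (β s < bdry a b g s → Phi a b β g' + 2 = Phi a b β g) ∧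
      (bdry a b g s ≤ β s → Phi a b β g' = Phi a b β g) := by
  have e1 : ∀ x : E → ℤ, Phi a b β x = (bdry a b x v - β v).natAbs +
      ((bdry a b x s - β s).natAbs +
        ∑ w ∈ (univ.erase v).erase s, (bdry a b x w - β w).natAbs) := by
    intro x
    unfold Phi
    rw [← Finset.add_sum_erase univ _ (Finset.mem_univ v),
      ← Finset.add_sum_erase (univ.erase v) _ (Finset.mem_erase.2 ⟨hvs.symm, Finset.mem_univ s⟩)]
  have e2 : ∑ w ∈ (univ.erase v).erase s, (bdry a b g' w - β w).natAbs =
      ∑ w ∈ (univ.erase v).erase s, (bdry a b g w - β w).natAbs := by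
    refine Finset.sum_congr rfl fun w hw => ?_
    have h1 : w ≠ s := (Finset.mem_erase.1 hw).1
    have h2 : w ≠ v := (Finset.mem_erase.1 (Finset.mem_erase.1 hw).2).1
    rw [h w]
    simp [h1.symm, h2.symm]
  have e3 : bdry a b g' v = bdry a b g v + 1 := by
    rw [h v]
    simp [hvs.symm]
  have e4 : bdry a b g' s = bdry a b g s - 1 := by
    rw [h s]
    simp [hvs]
    ring
  rw [e1 g', e1 g, e2, e3, e4]
  constructor <;> intro h1 <;> omega

theorem feasible (hlu : ∀ e, l e ≤ u e) (hβ : ∑ v, β v = 0)
    (hcut : ∀ S : Finset V, ∑ v ∈ S, β v ≤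
      ∑ e, ((if b e ∈ S ∧ a e ∉ S then u e else 0) - (if a e ∈ S ∧ b e ∉ S then l e else 0))) :
    ∃ g : E → ℤ, Feas l u g ∧ ∀ v, bdry a b g v = β v := by
  classical
  -- an optimal function
  have hex : ∃ n, ∃ g : E → ℤ, Feas l u g ∧ Phi a b β g = n :=
    ⟨_, l, fun e => ⟨le_rfl, hlu e⟩, rfl⟩
  obtain ⟨g₀, hg₀, hn⟩ := Nat.find_spec hex
  have hmin : ∀ g, Feas l u g → Phi a b β g₀ ≤ Phi a b β g := by
    intro g hg
    rw [hn]
    exact Nat.find_min' hex ⟨g, hg, rfl⟩
  by_contra hcon
  push Not at hcon
  -- no excess vertex is reachable from a deficit vertex in an optimal function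
  have key : ∀ k, ∀ g : E → ℤ, Feas l u g → Phi a b β g = Phi a b β g₀ → ∀ v t,
      bdry a b g v < β v → β t < bdry a b g t → ¬ RPath a b l u g k v t := by
    intro k
    induction k using Nat.strong_induction_on with
    | _ k ih =>
      intro g hg hopt v t hv ht hp
      cases k with
      | zero =>
        simp only [RPath] at hp
        subst hp
        omega
      | succ j =>
        obtain ⟨s, h1, h2⟩ := hp
        have hvs : v ≠ s := by
          rintro rfl
          exact ih j (Nat.lt_succ_self j) g hg hopt v t hv ht h2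
        obtain ⟨g', h3, h4, h5⟩ := push a b l u g hg v s h1
        obtain ⟨h6, h7⟩ := phi_push a b β g g' v s hvs h5 hv
        have h8 := hmin g' h3
        by_cases hs : β s < bdry a b g s
        · have := h6 hs
          omega
        · push Not at hs
          have h9 := h7 hs
          have h10 : RPath a b l u g' j s t := by
            refine rpath_keep a b l u g g' v t h4 j s h2 ?_
            intro i hi
            exact ih i (Nat.lt_succ_of_le hi) g hg hopt v t hv ht
          have hst : s ≠ t := by
            rintro rfl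
            omega
          have hvt : v ≠ t := by
            rintro rfl
            omega
          refine ih j (Nat.lt_succ_self j) g' h3 (by omega) s t ?_ ?_ h10
          · rw [h5 s]
            simp [hvs]
            omega
          · rw [h5 t]
            simp [hst, hvt]
            exact ht
  -- a deficit vertex
  obtain ⟨v₁, hv₁⟩ := hcon g₀ hg₀
  have hsum : ∑ v, (bdry a b g₀ v - β v) = 0 := by
    rw [Finset.sum_sub_distrib, cut_univ, hβ, sub_zero]
  have hdef : ∃ v, bdry a b g₀ v < β v := by
    by_contra hno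
    push Not at hno
    have := (Finset.sum_eq_zero_iff_of_nonneg (fun v _ => sub_nonneg.2 (hno v))).1 hsum v₁
      (Finset.mem_univ _)
    omega
  obtain ⟨v, hv⟩ := hdef
  -- the reachable set
  let R : Finset V := univ.filter fun w => ∃ k, RPath a b l u g₀ k v w
  have hRv : v ∈ R := by
    simp only [R, Finset.mem_filter, Finset.mem_univ, true_and]
    exact ⟨0, rfl⟩
  have hRle : ∀ w ∈ R, bdry a b g₀ w ≤ β w := by
    intro w hw
    simp only [R, Finset.mem_filter, Finset.mem_univ, true_and] at hw
    obtain ⟨k, hk⟩ := hw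
    by_contra hh
    push Not at hh
    exact key k g₀ hg₀ rfl v w hv hh hk
  have hlt : ∑ w ∈ R, bdry a b g₀ w < ∑ w ∈ R, β w :=
    Finset.sum_lt_sum hRle ⟨v, hRv, hv⟩
  have hge : ∑ w ∈ R, bdry a b g₀ w =
      ∑ e, ((if b e ∈ R ∧ a e ∉ R then u e else 0) - (if a e ∈ R ∧ b e ∉ R then l e else 0)) := by
    rw [cut]
    refine Finset.sum_congr rfl fun e _ => ?_
    have hin : b e ∈ R → a e ∉ R → g₀ e = u e := by
      intro h1 h2
      by_contra h3
      have h4 : g₀ e < u e := lt_of_le_of_ne (hg₀ e).2 h3
      apply h2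
      simp only [R, Finset.mem_filter, Finset.mem_univ, true_and] at h1 ⊢
      obtain ⟨k, hk⟩ := h1
      exact ⟨k + 1, rpath_snoc a b l u g₀ k v (b e) (a e) hk ⟨e, Or.inl ⟨rfl, rfl, h4⟩⟩⟩
    have hout : a e ∈ R → b e ∉ R → g₀ e = l e := by
      intro h1 h2
      by_contra h3
      have h4 : l e < g₀ e := lt_of_le_of_ne (hg₀ e).1 (fun h => h3 h.symm)
      apply h2
      simp only [R, Finset.mem_filter, Finset.mem_univ, true_and] at h1 ⊢
      obtain ⟨k, hk⟩ := h1
      exact ⟨k + 1, rpath_snoc a b l u g₀ k v (a e) (b e) hk ⟨e, Or.inr ⟨rfl, rfl, h4⟩⟩⟩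
    by_cases ha : a e ∈ R <;> by_cases hb : b e ∈ R
    · simp [ha, hb]
    · simp [ha, hb, hout ha hb]
    · simp [ha, hb, hin hb ha]
    · simp [ha, hb]
  have := hcut R
  omega

end feasible

end Pool.Agent.Lib.MP_5ee2e8_co_h71
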