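import Mathlib
import Pool.Agent.Lib.MP_5ee2e8_co_h71.Flow
set_option autoImplicit false
set_option linter.unusedSectionVars false
set_option linter.unusedVariables false

/-! Lifting of flows modulo `k` to integer flows (Tutte), chains modulo three, and two edge disjoint
paths. -/

namespace Pool.Agent.Lib.MP_5ee2e8_co_h71

open Finset

variable {V E : Type} [Fintype V] [DecidableEq V] [Fintype E] [DecidableEq E]

theorem lift (k : ℕ) (hk : 1 ≤ k) (a b : E → V) (φ : E → ZMod k)
    (hφ : ∀ v, bdry a b φ v = 0) :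
    ∃ f : E → ℤ, (∀ v, bdry a b f v = 0) ∧ (∀ e, (f e : ZMod k) = φ e) ∧
      ∀ e, -(k : ℤ) < f e ∧ f e < k := by
  classical
  have : NeZero k := ⟨by omega⟩
  let r : E → ℤ := fun e => ((φ e).val : ℤ)
  have hr0 : ∀ e, 0 ≤ r e := fun e => Int.natCast_nonneg _
  have hrk : ∀ e, r e < k := fun e => Int.ofNat_lt.2 (ZMod.val_lt (φ e))
  have hrφ : ∀ e, (r e : ZMod k) = φ e := by
    intro e
    simp [r]
  have hdvd : ∀ v, (k : ℤ) ∣ bdry a b r v := by
    intro v
    rw [← ZMod.intCast_zmod_eq_zero_iff_dvd]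
    have h1 := bdry_hom (Int.castAddHom (ZMod k)) a b r v
    have h2 : (fun e => (Int.castAddHom (ZMod k)) (r e)) = φ := by
      funext e
      exact hrφ e
    rw [h2, hφ v] at h1
    exact h1.symm
  choose β hβ using hdvd
  have hk' : (0 : ℤ) < k := by exact_mod_cast hk
  have hβ0 : ∑ v, β v = 0 := by
    have h1 : (k : ℤ) * ∑ v, β v = 0 := by
      rw [Finset.mul_sum, ← cut_univ a b r]
      exact Finset.sum_congr rfl fun v _ => (hβ v).symm
    rcases mul_eq_zero.1 h1 with h2 | h2
    · omega
    · exact h2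
  obtain ⟨g, hg, hgβ⟩ := feasible a b (fun _ => (0 : ℤ)) (fun e => if r e = 0 then 0 else 1) β
    (fun e => by split_ifs <;> norm_num) hβ0 (by
      intro S
      refine le_of_mul_le_mul_left ?_ hk'
      rw [Finset.mul_sum, Finset.sum_congr rfl fun v _ => (hβ v).symm, cut, Finset.mul_sum]
      refine Finset.sum_le_sum fun e _ => ?_
      have h1 := hr0 e
      have h2 := hrk e
      by_cases h3 : b e ∈ S <;> by_cases h4 : a e ∈ S <;> by_cases h5 : r e = 0 <;>
        simp [h3, h4, h5] <;> omega)
  refine ⟨fun e => r e - k * g e, ?_, ?_, ?_⟩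
  · intro v
    rw [bdry_sub, bdry_mul, hgβ v, ← hβ v, sub_self]
  · intro e
    push_cast
    rw [hrφ e]
    simp
  · intro e
    have h1 := hr0 e
    have h2 := hrk e
    have h3 := hg e
    simp only at h3
    by_cases h5 : r e = 0
    · rw [if_pos h5] at h3
      have h6 : g e = 0 := by omega
      simp only [h6, h5]
      constructor <;> omega
    · rw [if_neg h5] at h3
      have h6 : g e = 0 ∨ g e = 1 := by omega
      rcases h6 with h6 | h6 <;> simp only [h6] <;> constructor <;> omega

/-- `u` and `v` are joined by a chain modulo three in `P` -/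
def Conn (a b : E → V) (P : Set E) (u v : V) : Prop :=
  ∃ π : E → ZMod 3, (∀ e, e ∉ P → π e = 0) ∧
    ∀ w, bdry a b π w = (if w = v then 1 else 0) - (if w = u then 1 else 0)

lemma conn_refl (a b : E → V) (P : Set E) (u : V) : Conn a b P u u :=
  ⟨fun _ => 0, fun _ _ => rfl, fun w => by rw [bdry_zero, sub_self]⟩

lemma conn_symm {a b : E → V} {P : Set E} {u v : V} (h : Conn a b P u v) : Conn a b P v u := by
  obtain ⟨π, h1, h2⟩ := h
  refine ⟨fun e => - π e, fun e he => by simp only [h1 e he, neg_zero], fun w => ?_⟩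
  rw [bdry_neg, h2 w, neg_sub]

lemma conn_trans {a b : E → V} {P : Set E} {u v w : V} (h : Conn a b P u v)
    (h' : Conn a b P v w) : Conn a b P u w := by
  obtain ⟨π, h1, h2⟩ := h
  obtain ⟨π', h1', h2'⟩ := h'
  refine ⟨fun e => π e + π' e, fun e he => by simp only [h1 e he, h1' e he, add_zero], fun z => ?_⟩
  rw [bdry_add, h2 z, h2' z]
  ring

lemma conn_mono {a b : E → V} {P Q : Set E} {u v : V} (h : Conn a b P u v) (hPQ : P ⊆ Q) :
    Conn a b Q u v := by
  obtain ⟨π, h1, h2⟩ := h
  exact ⟨π, fun e he => h1 e fun h => he (hPQ h), h2⟩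

lemma conn_edge (a b : E → V) (P : Set E) (e : E) (he : e ∈ P) : Conn a b P (a e) (b e) := by
  refine ⟨fun f => if f = e then 1 else 0, ?_, ?_⟩
  · intro f hf
    have : f ≠ e := by
      rintro rfl
      exact hf he
    simp [this]
  · intro w
    rw [bdry_single]
    simp only [eq_comm]

/-- restriction of `x` to a vertex set which its support does not leave -/
lemma bdry_restrict {R : Type} [AddCommGroup R] (a b : E → V) (x : E → R) (W : Finset V)
    (h : ∀ e, x e ≠ 0 → (a e ∈ W ↔ b e ∈ W)) (v : V) :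
    bdry a b (fun e => if a e ∈ W then x e else 0) v = if v ∈ W then bdry a b x v else 0 := by
  unfold bdry
  by_cases hv : v ∈ W
  · rw [if_pos hv]
    refine Finset.sum_congr rfl fun e _ => ?_
    by_cases hx : x e = 0
    · simp [hx]
    · have h1 := h e hx
      by_cases ha : a e = v <;> by_cases hb : b e = v
      · simp [ha, hb, hv]
      · simp [ha, hb, hv]
      · have : a e ∈ W := h1.2 (by rw [hb]; exact hv)
        simp [ha, hb, this]
      · simp [ha, hb]
  · rw [if_neg hv]
    refine Finset.sum_eq_zero fun e _ => ?_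
    by_cases hx : x e = 0
    · simp [hx]
    · have h1 := h e hx
      by_cases ha : a e = v <;> by_cases hb : b e = v
      · simp [ha, hb]
      · have : a e ∉ W := by rw [ha]; exact hv
        simp [ha, hb, hv]
      · have : a e ∉ W := fun h2 => hv (by rw [← hb]; exact h1.1 h2)
        simp [ha, hb, this]
      · simp [ha, hb]

/-- the integer form of two edge disjoint paths -/
lemma two_path (a b : E → V) (X : Finset V) (x y : V) (hx : x ∈ X) (hy : y ∈ X) (hxy : x ≠ y)
    (h2 : ∀ S, S ⊆ X → S.Nonempty → S ≠ X → 2 ≤ (univ.filter fun e =>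
      (a e ∈ S ∧ b e ∈ X \ S) ∨ (b e ∈ S ∧ a e ∈ X \ S)).card) :
    ∃ f : E → ℤ, (∀ e, -1 ≤ f e ∧ f e ≤ 1) ∧ (∀ e, f e ≠ 0 → a e ∈ X ∧ b e ∈ X) ∧
      ∀ v, bdry a b f v = (if v = x then 2 else 0) - (if v = y then 2 else 0) := by
  classical
  obtain ⟨f, hf1, hf2⟩ := feasible a b (fun e => if a e ∈ X ∧ b e ∈ X then -1 else 0)
    (fun e => if a e ∈ X ∧ b e ∈ X then 1 else 0)
    (fun v => (if v = x then 2 else 0) - (if v = y then 2 else 0))
    (fun e => by split_ifs <;> norm_num) (by
      rw [Finset.sum_sub_distrib]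
      simp) (by
      intro S
      have e1 : ∑ v ∈ S, ((if v = x then (2 : ℤ) else 0) - (if v = y then 2 else 0)) =
          (if x ∈ S then 2 else 0) - (if y ∈ S then 2 else 0) := by
        rw [Finset.sum_sub_distrib, Finset.sum_ite_eq', Finset.sum_ite_eq']
      have e2 : ∀ e ∈ (univ : Finset E),
          (if (a e ∈ S ∩ X ∧ b e ∈ X \ (S ∩ X)) ∨ (b e ∈ S ∩ X ∧ a e ∈ X \ (S ∩ X)) then (1 : ℤ)
            else 0) ≤
          ((if b e ∈ S ∧ a e ∉ S then (if a e ∈ X ∧ b e ∈ X then (1 : ℤ) else 0) else 0) -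
          (if a e ∈ S ∧ b e ∉ S then (if a e ∈ X ∧ b e ∈ X then -1 else 0) else 0)) := by
        intro e _
        by_cases h3 : a e ∈ S <;> by_cases h4 : b e ∈ S <;> by_cases h5 : a e ∈ X <;>
          by_cases h6 : b e ∈ X <;> simp [h3, h4, h5, h6]
      have e3 := Finset.sum_le_sum e2
      rw [← Finset.sum_filter, Finset.sum_const, nsmul_eq_mul, mul_one] at e3
      refine le_trans ?_ e3
      rw [e1]
      by_cases hxS : x ∈ S
      · by_cases hyS : y ∈ S
        · simp [hxS, hyS]
        · have h3 := h2 (S ∩ X) Finset.inter_subset_right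
            ⟨x, Finset.mem_inter.2 ⟨hxS, hx⟩⟩ (by
              intro h
              apply hyS
              have : y ∈ S ∩ X := by
                rw [h]
                exact hy
              exact (Finset.mem_inter.1 this).1)
          simp only [hxS, hyS, if_true, if_false, sub_zero]
          exact_mod_cast h3
      · have : (0 : ℤ) ≤ (((univ.filter fun e => (a e ∈ S ∩ X ∧ b e ∈ X \ (S ∩ X)) ∨
            (b e ∈ S ∩ X ∧ a e ∈ X \ (S ∩ X))).card : ℕ) : ℤ) := Int.natCast_nonneg _
        refine le_trans ?_ this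
        rw [if_neg hxS]
        split_ifs <;> norm_num)
  refine ⟨f, ?_, ?_, hf2⟩
  · intro e
    have := hf1 e
    simp only at this
    split_ifs at this <;> omega
  · intro e he
    by_contra hh
    have := hf1 e
    simp only [if_neg hh] at this
    omega

/-- an even set connecting `x` and `y` inside `X` -/
theorem component (a b : E → V) (X : Finset V) (x y : V) (hx : x ∈ X) (hy : y ∈ X)
    (h2 : ∀ S, S ⊆ X → S.Nonempty → S ≠ X → 2 ≤ (univ.filter fun e =>
      (a e ∈ S ∧ b e ∈ X \ S) ∨ (b e ∈ S ∧ a e ∈ X \ S)).card) :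
    ∃ (W : Finset V) (D : E → ZMod 2), x ∈ W ∧ y ∈ W ∧ W ⊆ X ∧ (∀ v, bdry a b D v = 0) ∧
      (∀ e, D e ≠ 0 → a e ∈ W ∧ b e ∈ W) ∧ ∀ w ∈ W, Conn a b {e | D e ≠ 0} x w := by
  classical
  by_cases hxy : x = y
  · subst hxy
    refine ⟨{x}, fun _ => 0, by simp, by simp, by simpa using hx, fun v => bdry_zero a b v,
      fun e he => absurd rfl he, fun w hw => ?_⟩
    rw [Finset.mem_singleton] at hw
    subst hw
    exact conn_refl _ _ _ _
  obtain ⟨f, hf1, hf2, hf3⟩ := two_path a b X x y hx hy hxy h2
  let P : Set E := {e | f e ≠ 0}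
  let W : Finset V := univ.filter fun w => Conn a b P x w
  have hW : ∀ w, w ∈ W ↔ Conn a b P x w := by
    intro w
    simp [W]
  have hclosed : ∀ e, f e ≠ 0 → (a e ∈ W ↔ b e ∈ W) := by
    intro e he
    rw [hW, hW]
    exact ⟨fun h => conn_trans h (conn_edge a b P e he),
      fun h => conn_trans h (conn_symm (conn_edge a b P e he))⟩
  have hxW : x ∈ W := (hW x).2 (conn_refl _ _ _ _)
  have hWX : W ⊆ X := by
    intro w hw
    obtain ⟨π, h3, h4⟩ := (hW w).1 hw
    by_contra hwX
    have h5 := h4 w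
    have h6 : bdry a b π w = 0 := by
      unfold bdry
      refine Finset.sum_eq_zero fun e _ => ?_
      by_cases he : f e = 0
      · have : π e = 0 := h3 e (by simpa [P] using he)
        simp [this]
      · have h7 := hf2 e he
        have h8 : a e ≠ w := by
          rintro rfl
          exact hwX h7.1
        have h9 : b e ≠ w := by
          rintro rfl
          exact hwX h7.2
        simp [h8, h9]
    have h7 : w ≠ x := by
      rintro rfl
      exact hwX hx
    rw [h6] at h5
    simp [h7] at h5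
  have hyW : y ∈ W := by
    have h3 := cut a b f W
    have h4 : ∑ e, ((if b e ∈ W then f e else 0) - (if a e ∈ W then f e else 0)) = 0 := by
      refine Finset.sum_eq_zero fun e _ => ?_
      by_cases he : f e = 0
      · simp [he]
      · have := hclosed e he
        by_cases h5 : a e ∈ W
        · simp [h5, this.1 h5]
        · have h6 : b e ∉ W := fun h => h5 (this.2 h)
          simp [h5, h6]
    rw [h4, Finset.sum_congr rfl fun v _ => hf3 v, Finset.sum_sub_distrib, Finset.sum_ite_eq',
      Finset.sum_ite_eq', if_pos hxW] at h3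
    by_contra hyW
    rw [if_neg hyW] at h3
    norm_num at h3
  have hne : ∀ e, ((f e : ℤ) : ZMod 2) ≠ 0 ↔ f e ≠ 0 := by
    intro e
    have := hf1 e
    have h3 : f e = -1 ∨ f e = 0 ∨ f e = 1 := by omega
    rcases h3 with h3 | h3 | h3 <;> rw [h3] <;> simp
  let D : E → ZMod 2 := fun e => if a e ∈ W then ((f e : ℤ) : ZMod 2) else 0
  have hDf : ∀ e, D e ≠ 0 ↔ (a e ∈ W ∧ f e ≠ 0) := by
    intro e
    simp only [D]
    by_cases h3 : a e ∈ W
    · simp [h3, hne e]
    · simp [h3]
  refine ⟨W, D, hxW, hyW, hWX, ?_, ?_, ?_⟩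
  · intro v
    have h3 := bdry_restrict a b (fun e => ((f e : ℤ) : ZMod 2)) W
      (fun e he => hclosed e ((hne e).1 he)) v
    have h4 : bdry a b (fun e => ((f e : ℤ) : ZMod 2)) v = 0 := by
      have h5 := bdry_hom (Int.castAddHom (ZMod 2)) a b f v
      simp only [Int.coe_castAddHom] at h5
      rw [h5, hf3 v]
      push_cast
      have h6 : (2 : ZMod 2) = 0 := by decide
      split_ifs <;> simp [h6]
    rw [h3, h4]
    simp
  · intro e he
    have h3 := (hDf e).1 he
    exact ⟨h3.1, (hclosed e h3.2).1 h3.1⟩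
  · intro w hw
    obtain ⟨π, h3, h4⟩ := (hW w).1 hw
    have h3' : ∀ e, π e ≠ 0 → f e ≠ 0 := by
      intro e he hf
      exact he (h3 e (by simpa [P] using hf))
    refine ⟨fun e => if a e ∈ W then π e else 0, ?_, ?_⟩
    · intro e he
      dsimp only
      by_cases h5 : a e ∈ W
      · rw [if_pos h5]
        by_contra h6
        exact he ((hDf e).2 ⟨h5, h3' e h6⟩)
      · rw [if_neg h5]
    · intro z
      rw [bdry_restrict a b π W (fun e he => hclosed e (h3' e he)) z]
      by_cases hz : z ∈ W
      · rw [if_pos hz, h4 z]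
      · rw [if_neg hz]
        have h5 : z ≠ w := by
          rintro rfl
          exact hz hw
        have h6 : z ≠ x := by
          rintro rfl
          exact hz hxW
        simp [h5, h6]

end Pool.Agent.Lib.MP_5ee2e8_co_h71
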