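import Mathlib
import Pool.Agent.Lib.MP_5ee2e8_co_h71.Lift
set_option autoImplicit false
set_option linter.unusedSectionVars false
set_option linter.unusedVariables false

/-! The structure behind the six flow theorem of Seymour: in a bridgeless multigraph there are an
even set `C` and a flow modulo three which vanishes on no edge outside `C`. -/

namespace Pool.Agent.Lib.MP_5ee2e8_co_h71

open Finset

variable {V E : Type} [Fintype V] [DecidableEq V] [Fintype E] [DecidableEq E]

/-- edges with both ends in `U` -/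
def Zin (a b : E → V) (U : Finset V) : Set E := {e | a e ∈ U ∧ b e ∈ U}

/-- edges between `S` and `T` -/
def eb (a b : E → V) (S T : Finset V) : Finset E :=
  univ.filter fun e => (a e ∈ S ∧ b e ∈ T) ∨ (b e ∈ S ∧ a e ∈ T)

lemma mem_eb (a b : E → V) (S T : Finset V) (e : E) :
    e ∈ eb a b S T ↔ (a e ∈ S ∧ b e ∈ T) ∨ (b e ∈ S ∧ a e ∈ T) := by
  simp [eb]

/-- a flow vanishing on all edges of a cut but one vanishes on that one -/
lemma cut_one {R : Type} [AddCommGroup R] (a b : E → V) (x : E → R)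
    (hx : ∀ v, bdry a b x v = 0) (S : Finset V) (e₀ : E)
    (he₀ : (a e₀ ∈ S ∧ b e₀ ∉ S) ∨ (b e₀ ∈ S ∧ a e₀ ∉ S))
    (h : ∀ e, e ≠ e₀ → ((a e ∈ S ∧ b e ∉ S) ∨ (b e ∈ S ∧ a e ∉ S)) → x e = 0) : x e₀ = 0 := by
  have h1 := cut a b x S
  rw [Finset.sum_eq_zero fun v _ => hx v, Finset.sum_eq_single e₀] at h1
  · rcases he₀ with h2 | h2
    · simpa [h2.1, h2.2] using h1.symm
    · simpa [h2.1, h2.2] using h1.symm
  · intro e _ he
    by_cases h3 : a e ∈ S <;> by_cases h4 : b e ∈ S
    · simp [h3, h4]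
    · simp [h3, h4, h e he (Or.inl ⟨h3, h4⟩)]
    · simp [h3, h4, h e he (Or.inr ⟨h4, h3⟩)]
    · simp [h3, h4]
  · intro h2
    exact absurd (Finset.mem_univ _) h2

/-- connected sets: chains in the whole graph between vertices of `U` can be taken inside `U` -/
def Star (a b : E → V) (U : Finset V) : Prop :=
  ∀ u ∈ U, ∀ v ∈ U, Conn a b Set.univ u v → Conn a b (Zin a b U) u v

/-- the conclusion relative to `U` -/
def Seym (a b : E → V) (U : Finset V) : Prop :=
  ∃ (C : E → ZMod 2) (φ : E → ZMod 3), (∀ v, bdry a b C v = 0) ∧ (∀ v, bdry a b φ v = 0) ∧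
    (∀ e, C e ≠ 0 → a e ∉ U ∧ b e ∉ U) ∧
    ∀ e, C e = 0 → ¬ (a e ∈ U ∧ b e ∈ U) → φ e ≠ 0

/-- making a flow nonzero on `F` by cycles through `P` -/
lemma fix (a b : E → V) (P F : Set E) (hPF : ∀ e, e ∈ P → e ∉ F)
    (hc : ∀ g ∈ F, Conn a b P (a g) (b g)) (φ : E → ZMod 3) (hφ : ∀ v, bdry a b φ v = 0) :
    ∃ ψ : E → ZMod 3, (∀ v, bdry a b ψ v = 0) ∧ (∀ g ∈ F, ψ g ≠ 0) ∧
      ∀ g, g ∉ P → g ∉ F → ψ g = φ g := by
  classical
  have hc' : ∀ g, ∃ π : E → ZMod 3, (∀ e, e ∉ P → π e = 0) ∧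
      (g ∈ F → ∀ w, bdry a b π w = (if w = b g then 1 else 0) - (if w = a g then 1 else 0)) := by
    intro g
    by_cases hg : g ∈ F
    · obtain ⟨π, h1, h2⟩ := hc g hg
      exact ⟨π, h1, fun _ => h2⟩
    · exact ⟨fun _ => 0, fun _ _ => rfl, fun h => absurd h hg⟩
  choose π h1 h2 using hc'
  let F' : Finset E := univ.filter fun g => g ∈ F
  refine ⟨fun e => φ e + ∑ g ∈ F', (1 - φ g) * ((if e = g then 1 else 0) - π g e), ?_, ?_, ?_⟩
  · intro v
    rw [bdry_add, hφ v, zero_add, bdry_sum]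
    refine Finset.sum_eq_zero fun g hg => ?_
    have hg' : g ∈ F := by simpa [F'] using hg
    rw [bdry_mul, bdry_sub, bdry_single, h2 g hg' v]
    simp only [eq_comm]
    simp
  · intro h hh
    have h3 : ∑ g ∈ F', (1 - φ g) * ((if h = g then 1 else 0) - π g h) = 1 - φ h := by
      rw [Finset.sum_eq_single h]
      · have : π h h = 0 := h1 h h fun h4 => hPF h h4 hh
        simp [this]
      · intro g _ hg
        have : π g h = 0 := h1 g h fun h4 => hPF h h4 hh
        simp [this, hg.symm]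
      · intro h4
        exact absurd (by simpa [F'] using hh) h4
    simp only
    rw [h3, add_sub_cancel]
    decide
  · intro h hP hF
    have h3 : ∑ g ∈ F', (1 - φ g) * ((if h = g then 1 else 0) - π g h) = 0 := by
      refine Finset.sum_eq_zero fun g hg => ?_
      have hg' : g ∈ F := by simpa [F'] using hg
      have h4 : h ≠ g := by
        rintro rfl
        exact hF hg'
      have : π g h = 0 := h1 g h hP
      simp [this, h4]
    simp only
    rw [h3, add_zero]

lemma fix_two : ∀ p q r s : ZMod 3, r ≠ 0 → s ≠ 0 → ∃ c : ZMod 3, p + c * r ≠ 0 ∧ q + c * s ≠ 0 := by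
  decide

/-- an oriented edge as a chain -/
lemma edge_chain (a b : E → V) (e : E) (x u : V) (h : (a e = x ∧ b e = u) ∨ (b e = x ∧ a e = u)) :
    ∃ σ : ZMod 3, σ ≠ 0 ∧ ∀ w, bdry a b (fun f => if f = e then σ else 0) w =
      (if w = u then 1 else 0) - (if w = x then 1 else 0) := by
  rcases h with h | h
  · refine ⟨1, by decide, fun w => ?_⟩
    rw [bdry_single, h.1, h.2]
    simp only [eq_comm]
  · refine ⟨-1, by decide, fun w => ?_⟩
    rw [bdry_single, h.1, h.2]
    simp only [eq_comm (b := w)]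
    split_ifs <;> simp

/-- an edge joins its ends, in either order -/
lemma conn_edge' (a b : E → V) (P : Set E) (e : E) (he : e ∈ P) (x u : V)
    (h : (a e = x ∧ b e = u) ∨ (b e = x ∧ a e = u)) : Conn a b P x u := by
  rcases h with h | h
  · rw [← h.1, ← h.2]
    exact conn_edge a b P e he
  · rw [← h.1, ← h.2]
    exact conn_symm (conn_edge a b P e he)

/-- if every vertex of `U'` is joined to `U` in `P` then `P` connects `U'` -/
lemma conn_ext (a b : E → V) (U U' : Finset V) (hU : Star a b U) (P : Set E)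
    (hP : Zin a b U ⊆ P) (h : ∀ w ∈ U', ∃ u ∈ U, Conn a b P w u) :
    ∀ w ∈ U', ∀ w' ∈ U', Conn a b Set.univ w w' → Conn a b P w w' := by
  intro w hw w' hw' hc
  obtain ⟨u, hu, h1⟩ := h w hw
  obtain ⟨u', hu', h2⟩ := h w' hw'
  have h3 : Conn a b Set.univ u u' :=
    conn_trans (conn_symm (conn_mono h1 (Set.subset_univ _)))
      (conn_trans hc (conn_mono h2 (Set.subset_univ _)))
  exact conn_trans h1 (conn_trans (conn_mono (hU u hu u' hu' h3) hP) (conn_symm h2))

/-- Case A: two edges between `X` and `U` -/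
lemma caseA (a b : E → V) (U X : Finset V) (hU : Star a b U) (hXU : ∀ x ∈ X, x ∉ U)
    (hne : X.Nonempty)
    (hmin : ∀ S, S ⊆ X → S.Nonempty → S ≠ X → 2 ≤ (univ.filter fun e =>
      (a e ∈ S ∧ b e ∈ X \ S) ∨ (b e ∈ S ∧ a e ∈ X \ S)).card)
    (hd : 2 ≤ (eb a b X U).card)
    (ih : ∀ U' : Finset V, U ⊂ U' → Star a b U' → Seym a b U') : Seym a b U := by
  classical
  obtain ⟨e, he, f, hf, hef⟩ := Finset.one_lt_card.1 hd
  rw [mem_eb] at he hf
  obtain ⟨x, u, hx, hu, hxu⟩ : ∃ x u, x ∈ X ∧ u ∈ U ∧ ((a e = x ∧ b e = u) ∨ (b e = x ∧ a e = u)) := by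
    rcases he with h | h
    · exact ⟨a e, b e, h.1, h.2, Or.inl ⟨rfl, rfl⟩⟩
    · exact ⟨b e, a e, h.1, h.2, Or.inr ⟨rfl, rfl⟩⟩
  obtain ⟨y, v, hy, hv, hyv⟩ : ∃ y v, y ∈ X ∧ v ∈ U ∧ ((a f = y ∧ b f = v) ∨ (b f = y ∧ a f = v)) := by
    rcases hf with h | h
    · exact ⟨a f, b f, h.1, h.2, Or.inl ⟨rfl, rfl⟩⟩
    · exact ⟨b f, a f, h.1, h.2, Or.inr ⟨rfl, rfl⟩⟩
  obtain ⟨W, D, hxW, hyW, hWX, hD, hDW, hconn⟩ := component a b X x y hx hy hmin
  let U' := U ∪ W
  have hUU' : U ⊆ U' := Finset.subset_union_left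
  have hss : U ⊂ U' := by
    refine Finset.ssubset_iff_subset_ne.2 ⟨hUU', ?_⟩
    intro h
    have : x ∈ U := by
      rw [h]
      exact Finset.mem_union_right _ hxW
    exact hXU x hx this
  have hWU : ∀ w ∈ W, w ∉ U := fun w hw => hXU w (hWX hw)
  -- ends of e and f
  have heZ : e ∈ Zin a b U' := by
    rcases hxu with h | h
    · exact ⟨by rw [h.1]; exact Finset.mem_union_right _ hxW,
        by rw [h.2]; exact Finset.mem_union_left _ hu⟩
    · exact ⟨by rw [h.2]; exact Finset.mem_union_left _ hu,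
        by rw [h.1]; exact Finset.mem_union_right _ hxW⟩
  have hfZ : f ∈ Zin a b U' := by
    rcases hyv with h | h
    · exact ⟨by rw [h.1]; exact Finset.mem_union_right _ hyW,
        by rw [h.2]; exact Finset.mem_union_left _ hv⟩
    · exact ⟨by rw [h.2]; exact Finset.mem_union_left _ hv,
        by rw [h.1]; exact Finset.mem_union_right _ hyW⟩
  have he0 : e ∉ Zin a b U := by
    intro h
    rcases hxu with h' | h'
    · exact hXU x hx (by rw [← h'.1]; exact h.1)
    · exact hXU x hx (by rw [← h'.1]; exact h.2)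
  have hf0 : f ∉ Zin a b U := by
    intro h
    rcases hyv with h' | h'
    · exact hXU y hy (by rw [← h'.1]; exact h.1)
    · exact hXU y hy (by rw [← h'.1]; exact h.2)
  have heD : D e = 0 := by
    by_contra h
    have := hDW e h
    rcases hxu with h' | h'
    · exact hWU _ this.2 (by rw [h'.2]; exact hu)
    · exact hWU _ this.1 (by rw [h'.2]; exact hu)
  have hfD : D f = 0 := by
    by_contra h
    have := hDW f h
    rcases hyv with h' | h'
    · exact hWU _ this.2 (by rw [h'.2]; exact hv)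
    · exact hWU _ this.1 (by rw [h'.2]; exact hv)
  let P0 : Set E := Zin a b U ∪ {g | D g ≠ 0}
  let P : Set E := insert e P0
  have heP0 : e ∉ P0 := by
    rintro (h | h)
    · exact he0 h
    · exact h heD
  have hfP0 : f ∉ P0 := by
    rintro (h | h)
    · exact hf0 h
    · exact h hfD
  have hfP : f ∉ P := by
    rintro (h | h)
    · exact hef h.symm
    · exact hfP0 h
  have hZP0 : Zin a b U ⊆ P0 := Set.subset_union_left
  have hP0P : P0 ⊆ P := Set.subset_insert _ _
  have hZP : Zin a b U ⊆ P := hZP0.trans hP0P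
  have hP0Z : P0 ⊆ Zin a b U' := by
    rintro g (h | h)
    · exact ⟨hUU' h.1, hUU' h.2⟩
    · have := hDW g h
      exact ⟨Finset.mem_union_right _ this.1, Finset.mem_union_right _ this.2⟩
  have hPZ : P ⊆ Zin a b U' := by
    rintro g (h | h)
    · rw [h]
      exact heZ
    · exact hP0Z h
  have hcx : ∀ w ∈ W, Conn a b P0 x w := fun w hw =>
    conn_mono (hconn w hw) Set.subset_union_right
  have hcon : ∀ w ∈ U', ∃ u ∈ U, Conn a b P w u := by
    intro w hw
    rcases Finset.mem_union.1 hw with h | h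
    · exact ⟨w, h, conn_refl _ _ _ _⟩
    · exact ⟨u, hu, conn_trans (conn_symm (conn_mono (hcx w h) hP0P))
        (conn_edge' a b P e (Set.mem_insert _ _) x u hxu)⟩
  have hcon' := conn_ext a b U U' hU P hZP hcon
  have hstar : Star a b U' := fun w hw w' hw' h => conn_mono (hcon' w hw w' hw' h) hPZ
  obtain ⟨C, φ, hC, hφ, hCU, hφU⟩ := ih U' hss hstar
  -- fix the edges of `Zin U'` outside `P` and `f`
  obtain ⟨ψ, hψ, hψF, hψE⟩ := fix a b P {g | g ∈ Zin a b U' ∧ g ∉ P ∧ g ≠ f}
    (fun g hg h => h.2.1 hg) (fun g hg => hcon' _ hg.1.1 _ hg.1.2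
      (conn_edge a b Set.univ g (Set.mem_univ _))) φ hφ
  -- the cycle through e and f
  obtain ⟨σ, hσ, hσ'⟩ := edge_chain a b e x u hxu
  obtain ⟨τ, hτ, hτ'⟩ := edge_chain a b f v y (by
    rcases hyv with h | h
    · exact Or.inr ⟨h.2, h.1⟩
    · exact Or.inl ⟨h.2, h.1⟩)
  have huv : Conn a b Set.univ u v := by
    refine conn_trans (conn_symm (conn_edge' a b Set.univ e (Set.mem_univ _) x u hxu)) ?_
    refine conn_trans (conn_mono (hcx y hyW) (Set.subset_univ _)) ?_
    exact conn_edge' a b Set.univ f (Set.mem_univ _) y v hyv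
  obtain ⟨π₁, hπ₁, hπ₁'⟩ := conn_mono (hU u hu v hv huv) hZP0
  obtain ⟨π₂, hπ₂, hπ₂'⟩ := conn_symm (hcx y hyW)
  obtain ⟨c, hc1, hc2⟩ := fix_two (ψ e) (ψ f) σ τ hσ hτ
  let χ : E → ZMod 3 := fun g => ((if g = e then σ else 0) + (if g = f then τ else 0)) +
    (π₁ g + π₂ g)
  have hχ : ∀ w, bdry a b χ w = 0 := by
    intro w
    simp only [χ]
    rw [bdry_add, bdry_add a b (fun g => if g = e then σ else 0), bdry_add, hσ' w, hτ' w, hπ₁' w,
      hπ₂' w]
    ring
  have hχe : χ e = σ := by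
    simp [χ, hπ₁ e heP0, hπ₂ e heP0, hef]
  have hχf : χ f = τ := by
    simp [χ, hπ₁ f hfP0, hπ₂ f hfP0, hef.symm]
  have hχ0 : ∀ g, g ≠ e → g ≠ f → g ∉ P0 → χ g = 0 := by
    intro g h1 h2 h3
    simp [χ, hπ₁ g h3, hπ₂ g h3, h1, h2]
  refine ⟨fun g => C g + D g, fun g => ψ g + c * χ g, ?_, ?_, ?_, ?_⟩
  · intro w
    rw [bdry_add, hC w, hD w, add_zero]
  · intro w
    rw [bdry_add, bdry_mul, hψ w, hχ w, mul_zero, add_zero]
  · intro g hg
    by_cases hCg : C g = 0
    · have hDg : D g ≠ 0 := by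
        intro h
        exact hg (by simp only [hCg, h, add_zero])
      have := hDW g hDg
      exact ⟨hWU _ this.1, hWU _ this.2⟩
    · have := hCU g hCg
      exact ⟨fun h => this.1 (hUU' h), fun h => this.2 (hUU' h)⟩
  · intro g hg hgU
    have hCD : C g = 0 ∧ D g = 0 := by
      by_cases hDg : D g = 0
      · simp only [hDg, add_zero] at hg
        exact ⟨hg, hDg⟩
      · exfalso
        have h1 := hDW g hDg
        have h2 : C g = 0 := by
          by_contra h
          exact (hCU g h).1 (Finset.mem_union_right _ h1.1)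
        simp only [h2, zero_add] at hg
        exact hDg hg
    simp only
    by_cases hge : g = e
    · rw [hge, hχe]
      exact hc1
    by_cases hgf : g = f
    · rw [hgf, hχf]
      exact hc2
    have hgP0 : g ∉ P0 := by
      rintro (h | h)
      · exact hgU h
      · exact h hCD.2
    have hgP : g ∉ P := by
      rintro (h | h)
      · exact hge h
      · exact hgP0 h
    rw [hχ0 g hge hgf hgP0, mul_zero, add_zero]
    by_cases hgZ : g ∈ Zin a b U'
    · exact hψF g ⟨hgZ, hgP, hgf⟩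
    · rw [hψE g hgP fun h => hgZ h.1]
      exact hφU g hCD.1 hgZ

/-- Case B: one edge between `X` and `U` and one other edge leaving `X` -/
lemma caseB (a b : E → V) (U X : Finset V) (hU : Star a b U) (hXU : ∀ x ∈ X, x ∉ U)
    (e e' : E) (he : e ∈ eb a b X U) (he1 : ∀ g ∈ eb a b X U, g = e)
    (he' : (a e' ∈ X ∧ b e' ∉ X) ∨ (b e' ∈ X ∧ a e' ∉ X)) (he'U : a e' ∉ U ∧ b e' ∉ U)
    (hcut : ∀ g, ((a g ∈ X ∧ b g ∉ X) ∨ (b g ∈ X ∧ a g ∉ X)) → g = e ∨ g = e')
    (ih : ∀ U' : Finset V, U ⊂ U' → Star a b U' → Seym a b U') : Seym a b U := by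
  classical
  rw [mem_eb] at he
  obtain ⟨x, u, hx, hu, hxu⟩ : ∃ x u, x ∈ X ∧ u ∈ U ∧ ((a e = x ∧ b e = u) ∨ (b e = x ∧ a e = u)) := by
    rcases he with h | h
    · exact ⟨a e, b e, h.1, h.2, Or.inl ⟨rfl, rfl⟩⟩
    · exact ⟨b e, a e, h.1, h.2, Or.inr ⟨rfl, rfl⟩⟩
  have hxU : x ∉ U := hXU x hx
  have huX : u ∉ X := fun h => hXU u h hu
  have hδe : (a e ∈ X ∧ b e ∉ X) ∨ (b e ∈ X ∧ a e ∉ X) := by
    rcases hxu with h | h
    · exact Or.inl ⟨by rw [h.1]; exact hx, by rw [h.2]; exact huX⟩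
    · exact Or.inr ⟨by rw [h.1]; exact hx, by rw [h.2]; exact huX⟩
  let U' := insert x U
  have hUU' : U ⊆ U' := Finset.subset_insert _ _
  have hss : U ⊂ U' := Finset.ssubset_insert hxU
  have heZ : e ∈ Zin a b U' := by
    rcases hxu with h | h
    · exact ⟨by rw [h.1]; exact Finset.mem_insert_self _ _,
        by rw [h.2]; exact Finset.mem_insert_of_mem hu⟩
    · exact ⟨by rw [h.2]; exact Finset.mem_insert_of_mem hu,
        by rw [h.1]; exact Finset.mem_insert_self _ _⟩
  let P : Set E := insert e (Zin a b U)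
  have hZP : Zin a b U ⊆ P := Set.subset_insert _ _
  have hPZ : P ⊆ Zin a b U' := by
    rintro g (h | h)
    · rw [h]
      exact heZ
    · exact ⟨hUU' h.1, hUU' h.2⟩
  have hcon : ∀ w ∈ U', ∃ u ∈ U, Conn a b P w u := by
    intro w hw
    rcases Finset.mem_insert.1 hw with h | h
    · rw [h]
      exact ⟨u, hu, conn_edge' a b P e (Set.mem_insert _ _) x u hxu⟩
    · exact ⟨w, h, conn_refl _ _ _ _⟩
  have hcon' := conn_ext a b U U' hU P hZP hcon
  have hstar : Star a b U' := fun w hw w' hw' h => conn_mono (hcon' w hw w' hw' h) hPZ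
  obtain ⟨C, φ, hC, hφ, hCU, hφU⟩ := ih U' hss hstar
  obtain ⟨ψ, hψ, hψF, hψE⟩ := fix a b P {g | g ∈ Zin a b U' ∧ g ∉ P}
    (fun g hg h => h.2 hg) (fun g hg => hcon' _ hg.1.1 _ hg.1.2
      (conn_edge a b Set.univ g (Set.mem_univ _))) φ hφ
  -- e' has an end outside U'
  have hne : e' ≠ e := by
    rintro rfl
    rcases hxu with h | h
    · exact he'U.2 (by rw [h.2]; exact hu)
    · exact he'U.1 (by rw [h.2]; exact hu)
  have he'Z : e' ∉ Zin a b U' := by
    intro h
    have h1 : a e' = x := by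
      rcases Finset.mem_insert.1 h.1 with h' | h'
      · exact h'
      · exact absurd h' he'U.1
    have h2 : b e' = x := by
      rcases Finset.mem_insert.1 h.2 with h' | h'
      · exact h'
      · exact absurd h' he'U.2
    rcases he' with h' | h'
    · exact h'.2 (by rw [h2]; exact hx)
    · exact h'.2 (by rw [h1]; exact hx)
  have hCe : C e = 0 := by
    by_contra h
    have := hCU e h
    rcases hxu with h' | h'
    · exact this.2 (by rw [h'.2]; exact hUU' hu)
    · exact this.1 (by rw [h'.2]; exact hUU' hu)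
  have hCe' : C e' = 0 := by
    refine cut_one a b C hC X e' he' ?_
    intro g hg hgX
    rcases hcut g hgX with h | h
    · rw [h]
      exact hCe
    · exact absurd h hg
  have hφe' : ψ e' ≠ 0 := by
    rw [hψE e' (fun h => he'Z (hPZ h)) fun h => he'Z h.1]
    exact hφU e' hCe' he'Z
  have hψe : ψ e ≠ 0 := by
    intro h0
    apply hφe'
    refine cut_one a b ψ hψ X e' he' ?_
    intro g hg hgX
    rcases hcut g hgX with h | h
    · rw [h]
      exact h0
    · exact absurd h hg
  refine ⟨C, ψ, hC, hψ, ?_, ?_⟩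
  · intro g hg
    have := hCU g hg
    exact ⟨fun h => this.1 (hUU' h), fun h => this.2 (hUU' h)⟩
  · intro g hg hgU
    by_cases hge : g = e
    · rw [hge]
      exact hψe
    have hgP : g ∉ P := by
      rintro (h | h)
      · exact hge h
      · exact hgU h
    by_cases hgZ : g ∈ Zin a b U'
    · exact hψF g ⟨hgZ, hgP⟩
    · rw [hψE g hgP fun h => hgZ h.1]
      exact hφU g hg hgZ

/-- Case C: no edge leaves `X` -/
lemma caseC (a b : E → V) (U X : Finset V) (hU : Star a b U) (hXU : ∀ x ∈ X, x ∉ U)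
    (hne : X.Nonempty)
    (hcut : ∀ g, ¬ ((a g ∈ X ∧ b g ∉ X) ∨ (b g ∈ X ∧ a g ∉ X)))
    (ih : ∀ U' : Finset V, U ⊂ U' → Star a b U' → Seym a b U') : Seym a b U := by
  classical
  obtain ⟨x, hx⟩ := hne
  have hxU : x ∉ U := hXU x hx
  let U' := insert x U
  have hUU' : U ⊆ U' := Finset.subset_insert _ _
  have hss : U ⊂ U' := Finset.ssubset_insert hxU
  have hno : ∀ u ∈ U, ¬ Conn a b Set.univ x u := by
    rintro u hu ⟨π, _, h2⟩
    have h3 := cut a b π X
    have h4 : ∑ e, ((if b e ∈ X then π e else 0) - (if a e ∈ X then π e else 0)) = 0 := by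
      refine Finset.sum_eq_zero fun e _ => ?_
      have := hcut e
      by_cases h5 : a e ∈ X <;> by_cases h6 : b e ∈ X
      · simp [h5, h6]
      · exact absurd (Or.inl ⟨h5, h6⟩) this
      · exact absurd (Or.inr ⟨h6, h5⟩) this
      · simp [h5, h6]
    have huX : u ∉ X := fun h => hXU u h hu
    rw [h4, Finset.sum_congr rfl fun v _ => h2 v, Finset.sum_sub_distrib, Finset.sum_ite_eq',
      Finset.sum_ite_eq', if_pos hx, if_neg huX] at h3
    revert h3
    decide
  have hcon' : ∀ w ∈ U', ∀ w' ∈ U', Conn a b Set.univ w w' → Conn a b (Zin a b U) w w' := by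
    intro w hw w' hw' h
    rcases Finset.mem_insert.1 hw with h1 | h1
    · rcases Finset.mem_insert.1 hw' with h2 | h2
      · rw [h1, h2]
        exact conn_refl _ _ _ _
      · rw [h1] at h
        exact absurd h (hno w' h2)
    · rcases Finset.mem_insert.1 hw' with h2 | h2
      · rw [h2] at h
        exact absurd (conn_symm h) (hno w h1)
      · exact hU w h1 w' h2 h
  have hZZ : Zin a b U ⊆ Zin a b U' := fun g h => ⟨hUU' h.1, hUU' h.2⟩
  have hstar : Star a b U' := fun w hw w' hw' h => conn_mono (hcon' w hw w' hw' h) hZZ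
  obtain ⟨C, φ, hC, hφ, hCU, hφU⟩ := ih U' hss hstar
  obtain ⟨ψ, hψ, hψF, hψE⟩ := fix a b (Zin a b U) {g | g ∈ Zin a b U' ∧ g ∉ Zin a b U}
    (fun g hg h => h.2 hg) (fun g hg => hcon' _ hg.1.1 _ hg.1.2
      (conn_edge a b Set.univ g (Set.mem_univ _))) φ hφ
  refine ⟨C, ψ, hC, hψ, ?_, ?_⟩
  · intro g hg
    have := hCU g hg
    exact ⟨fun h => this.1 (hUU' h), fun h => this.2 (hUU' h)⟩
  · intro g hg hgU
    by_cases hgZ : g ∈ Zin a b U'
    · exact hψF g ⟨hgZ, hgU⟩
    · rw [hψE g hgU fun h => hgZ h.1]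
      exact hφU g hg hgZ

/-- minimal sets: every cut of `X` has two edges inside `X` -/
lemma two_of_min (a b : E → V) (U X : Finset V) (hXU : ∀ x ∈ X, x ∉ U)
    (hX1 : (eb a b X (U ∪ X)ᶜ).card ≤ 1)
    (hmin : ∀ S, S ⊆ X → S.Nonempty → S ≠ X → 2 ≤ (eb a b S (U ∪ S)ᶜ).card) :
    ∀ S, S ⊆ X → S.Nonempty → S ≠ X → 2 ≤ (univ.filter fun e =>
      (a e ∈ S ∧ b e ∈ X \ S) ∨ (b e ∈ S ∧ a e ∈ X \ S)).card := by
  classical
  intro S hS hne hSX
  by_contra hlt
  push Not at hlt
  have hTne : (X \ S).Nonempty := by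
    rw [Finset.sdiff_nonempty]
    intro h
    exact hSX (Finset.Subset.antisymm hS h)
  have hT : X \ S ⊆ X := Finset.sdiff_subset
  have hTX : X \ S ≠ X := by
    intro h
    obtain ⟨s, hs⟩ := hne
    have : s ∈ X \ S := by
      rw [h]
      exact hS hs
    exact (Finset.mem_sdiff.1 this).2 hs
  have h1 := hmin S hS hne hSX
  have h2 := hmin (X \ S) hT hTne hTX
  -- an edge from S to Y
  have key : ∀ R : Finset V, R ⊆ X → 2 ≤ (eb a b R (U ∪ R)ᶜ).card →
      (univ.filter fun e => (a e ∈ R ∧ b e ∈ X \ R) ∨ (b e ∈ R ∧ a e ∈ X \ R)).card ≤ 1 →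
      ∃ e ∈ eb a b X (U ∪ X)ᶜ, a e ∈ R ∨ b e ∈ R := by
    intro R hR h3 h4
    have h5 : ∃ e ∈ eb a b R (U ∪ R)ᶜ,
        e ∉ (univ.filter fun e => (a e ∈ R ∧ b e ∈ X \ R) ∨ (b e ∈ R ∧ a e ∈ X \ R)) := by
      by_contra hno
      push Not at hno
      have := Finset.card_le_card (show eb a b R (U ∪ R)ᶜ ⊆ _ from fun e he => hno e he)
      omega
    obtain ⟨e, he, he2⟩ := h5
    refine ⟨e, ?_, ?_⟩
    · rw [mem_eb] at he ⊢
      simp only [Finset.mem_filter, Finset.mem_univ, true_and, not_or, not_and,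
        Finset.mem_sdiff, Finset.mem_compl, Finset.mem_union] at he he2 ⊢
      rcases he with h | h
      · refine Or.inl ⟨hR h.1, fun h6 => ?_, ?_⟩
        · exact h.2.1 h6
        · intro h6
          exact he2.1 h.1 h6 h.2.2
      · refine Or.inr ⟨hR h.1, fun h6 => ?_, ?_⟩
        · exact h.2.1 h6
        · intro h6
          exact he2.2 h.1 h6 h.2.2
    · rw [mem_eb] at he
      rcases he with h | h
      · exact Or.inl h.1
      · exact Or.inr h.1
  obtain ⟨e, he, heS⟩ := key S hS h1 (by omega)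
  have hsymm : (univ.filter fun e => (a e ∈ X \ S ∧ b e ∈ X \ (X \ S)) ∨
      (b e ∈ X \ S ∧ a e ∈ X \ (X \ S))) = (univ.filter fun e =>
      (a e ∈ S ∧ b e ∈ X \ S) ∨ (b e ∈ S ∧ a e ∈ X \ S)) := by
    rw [Finset.sdiff_sdiff_eq_self hS]
    ext e
    simp only [Finset.mem_filter, Finset.mem_univ, true_and]
    tauto
  obtain ⟨f, hf, hfT⟩ := key (X \ S) hT h2 (by rw [hsymm]; omega)
  have hef : e = f := Finset.card_le_one.1 hX1 e he f hf
  subst hef
  rw [mem_eb] at he
  simp only [Finset.mem_compl, Finset.mem_union, Finset.mem_sdiff, not_or] at he hfT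
  rcases he with h | h
  · have hb : b e ∉ X := h.2.2
    have h3 : a e ∈ S := by
      rcases heS with h' | h'
      · exact h'
      · exact absurd (hS h') hb
    rcases hfT with h' | h'
    · exact h'.2 h3
    · exact hb h'.1
  · have ha : a e ∉ X := h.2.2
    have h3 : b e ∈ S := by
      rcases heS with h' | h'
      · exact absurd (hS h') ha
      · exact h'
    rcases hfT with h' | h'
    · exact ha h'.1
    · exact h'.2 h3

theorem seym (a b : E → V)
    (hbr : ∀ S : Finset V, (univ.filter fun e =>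
      (a e ∈ S ∧ b e ∉ S) ∨ (b e ∈ S ∧ a e ∉ S)).card ≠ 1) :
    ∀ (n : ℕ) (U : Finset V), (Uᶜ).card = n → Star a b U → Seym a b U := by
  classical
  intro n
  induction n using Nat.strong_induction_on with
  | _ n ih =>
    intro U hn hU
    have ih' : ∀ U' : Finset V, U ⊂ U' → Star a b U' → Seym a b U' := by
      intro U' h1 h2
      refine ih _ ?_ U' rfl h2
      rw [← hn]
      exact Finset.card_lt_card (Finset.compl_ssubset_compl.2 h1)
    by_cases hall : Uᶜ.Nonempty
    · -- a minimal set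
      let 𝒳 : Finset (Finset V) := univ.filter fun X =>
        X.Nonempty ∧ (∀ x ∈ X, x ∉ U) ∧ (eb a b X (U ∪ X)ᶜ).card ≤ 1
      have hmem : ∀ X, X ∈ 𝒳 ↔
          (X.Nonempty ∧ (∀ x ∈ X, x ∉ U) ∧ (eb a b X (U ∪ X)ᶜ).card ≤ 1) := by
        intro X
        simp [𝒳]
      have h𝒳 : 𝒳.Nonempty := by
        refine ⟨Uᶜ, (hmem _).2 ⟨hall, fun x hx => Finset.mem_compl.1 hx, ?_⟩⟩
        have : (U ∪ Uᶜ)ᶜ = (∅ : Finset V) := by
          rw [Finset.union_compl, Finset.compl_univ]
        rw [this]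
        simp [eb]
      obtain ⟨X, hX, hXmin⟩ := Finset.exists_min_image 𝒳 Finset.card h𝒳
      obtain ⟨hXne, hXU, hX1⟩ := (hmem X).1 hX
      have hmin : ∀ S, S ⊆ X → S.Nonempty → S ≠ X → 2 ≤ (eb a b S (U ∪ S)ᶜ).card := by
        intro S hS hne hSX
        by_contra hlt
        push Not at hlt
        have h1 : S ∈ 𝒳 := (hmem S).2 ⟨hne, fun s hs => hXU s (hS hs), by omega⟩
        have h2 := hXmin S h1
        exact hSX (Finset.eq_of_subset_of_card_le hS h2)
      have hmin' := two_of_min a b U X hXU hX1 hmin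
      by_cases hd : 2 ≤ (eb a b X U).card
      · exact caseA a b U X hU hXU hXne hmin' hd ih'
      · -- the cut of X
        have hsplit : (univ.filter fun e => (a e ∈ X ∧ b e ∉ X) ∨ (b e ∈ X ∧ a e ∉ X)) =
            eb a b X U ∪ eb a b X (U ∪ X)ᶜ := by
          ext e
          simp only [Finset.mem_filter, Finset.mem_univ, true_and, Finset.mem_union, mem_eb,
            Finset.mem_compl, not_or]
          have h1 := hXU (a e)
          have h2 := hXU (b e)
          tauto
        have hdisj : Disjoint (eb a b X U) (eb a b X (U ∪ X)ᶜ) := by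
          rw [Finset.disjoint_left]
          intro e h3 h4
          rw [mem_eb] at h3 h4
          simp only [Finset.mem_compl, Finset.mem_union, not_or] at h4
          have h1 := hXU (a e)
          have h2 := hXU (b e)
          tauto
        have hcard := hbr X
        rw [hsplit, Finset.card_union_of_disjoint hdisj] at hcard
        by_cases h0 : (eb a b X U).card = 0
        · have h1 : (eb a b X (U ∪ X)ᶜ).card = 0 := by omega
          refine caseC a b U X hU hXU hXne ?_ ih'
          intro g hg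
          have : g ∈ (univ.filter fun e => (a e ∈ X ∧ b e ∉ X) ∨ (b e ∈ X ∧ a e ∉ X)) := by
            simpa using hg
          rw [hsplit, Finset.card_eq_zero.1 h0, Finset.card_eq_zero.1 h1] at this
          simp at this
        · have h1 : (eb a b X U).card = 1 := by omega
          have h2 : (eb a b X (U ∪ X)ᶜ).card = 1 := by omega
          obtain ⟨e, he⟩ := Finset.card_eq_one.1 h1
          obtain ⟨e', he'⟩ := Finset.card_eq_one.1 h2
          have he'' : e' ∈ eb a b X (U ∪ X)ᶜ := by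
            rw [he']
            exact Finset.mem_singleton_self _
          rw [mem_eb] at he''
          simp only [Finset.mem_compl, Finset.mem_union, not_or] at he''
          refine caseB a b U X hU hXU e e' (by rw [he]; exact Finset.mem_singleton_self _)
            (fun g hg => by rw [he] at hg; exact Finset.mem_singleton.1 hg) ?_ ?_ ?_ ih'
          · rcases he'' with h | h
            · exact Or.inl ⟨h.1, h.2.2⟩
            · exact Or.inr ⟨h.1, h.2.2⟩
          · rcases he'' with h | h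
            · exact ⟨hXU _ h.1, h.2.1⟩
            · exact ⟨h.2.1, hXU _ h.1⟩
          · intro g hg
            have : g ∈ (univ.filter fun e => (a e ∈ X ∧ b e ∉ X) ∨ (b e ∈ X ∧ a e ∉ X)) := by
              simpa using hg
            rw [hsplit, he, he'] at this
            simpa using this
    · -- everything is in U
      rw [Finset.not_nonempty_iff_eq_empty] at hall
      have hU' : ∀ v, v ∈ U := by
        intro v
        by_contra h
        have : v ∈ Uᶜ := Finset.mem_compl.2 h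
        rw [hall] at this
        simp at this
      exact ⟨fun _ => 0, fun _ => 0, fun v => bdry_zero a b v, fun v => bdry_zero a b v,
        fun e he => absurd rfl he, fun e _ he => absurd ⟨hU' _, hU' _⟩ he⟩

/-- The structure theorem (Seymour): `C` even and `φ` a flow modulo three, nonzero off `C`. -/
theorem seymour (a b : E → V)
    (hbr : ∀ S : Finset V, (univ.filter fun e =>
      (a e ∈ S ∧ b e ∉ S) ∨ (b e ∈ S ∧ a e ∉ S)).card ≠ 1) :
    ∃ (C : E → ZMod 2) (φ : E → ZMod 3), (∀ v, bdry a b C v = 0) ∧ (∀ v, bdry a b φ v = 0) ∧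
      ∀ e, C e = 0 → φ e ≠ 0 := by
  obtain ⟨C, φ, h1, h2, _, h4⟩ := seym a b hbr _ ∅ rfl (by
    intro u hu
    simp at hu)
  exact ⟨C, φ, h1, h2, fun e he => h4 e he (by simp)⟩

end Pool.Agent.Lib.MP_5ee2e8_co_h71
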