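import Mathlib
import Pool.Agent.Lib.MP_5ee2e8_co.Defs
import Pool.Agent.Lib.MP_5ee2e8_co_h71.Struct
set_option autoImplicit false
set_option linter.unusedSectionVars false
set_option linter.unusedVariables false

/-! Thirty covers by three even subgraphs, every edge covered fifty four times. -/

namespace Pool.Agent.Lib.MP_5ee2e8_co_h71

open Finset
open Pool.Agent.Lib.MP_5ee2e8_co (IsEvenSub Bridgeless)

lemma exists_ab {V E : Type} (ends : E → Sym2 V) :
    ∃ a b : E → V, ∀ e, ends e = s(a e, b e) := by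
  have : ∀ e, ∃ p : V × V, ends e = s(p.1, p.2) := by
    intro e
    induction h : ends e using Sym2.ind with
    | _ x y => exact ⟨(x, y), rfl⟩
  choose p hp using this
  exact ⟨fun e => (p e).1, fun e => (p e).2, hp⟩

lemma zmod2_cases (z : ZMod 2) : z = 0 ∨ z = 1 := by
  revert z; decide

variable {V E : Type} [Fintype V] [DecidableEq V] [Fintype E] [DecidableEq E]

/-- even subgraphs are the flows modulo two -/
lemma even_iff (ends : E → Sym2 V) (a b : E → V) (h : ∀ e, ends e = s(a e, b e)) (x : E → ZMod 2) :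
    IsEvenSub ends {e | x e = 1} ↔ ∀ v, bdry a b x v = 0 := by
  classical
  unfold IsEvenSub
  refine forall_congr' fun v => ?_
  rw [← ZMod.natCast_eq_zero_iff_even, Set.ncard_eq_toFinset_card']
  have : ((Set.toFinset {f : E | f ∈ {e | x e = 1} ∧ v ∈ ends f ∧ ¬ (ends f).IsDiag}).card : ZMod 2) =
      bdry a b x v := by
    unfold bdry
    rw [Finset.card_eq_sum_ones, Nat.cast_sum, Set.toFinset_ofPred, Finset.sum_filter]
    refine Finset.sum_congr rfl fun e _ => ?_
    rw [h e]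
    rcases zmod2_cases (x e) with h1 | h1
    · simp [h1]
    · by_cases h2 : a e = v
      · by_cases h3 : b e = v
        · subst h2
          simp [h1, h3]
        · subst h2
          have : ¬ a e = b e := fun h => h3 h.symm
          simp [h1, h3, this]
      · by_cases h3 : b e = v
        · subst h3
          simp [h1, h2]
        · have h2' : ¬ v = a e := fun h => h2 h.symm
          have h3' : ¬ v = b e := fun h => h3 h.symm
          simp [h1, h2, h3, h2', h3']
  rw [this]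

/-- no cut of a bridgeless graph has exactly one edge -/
lemma no_bridge (ends : E → Sym2 V) (a b : E → V) (h : ∀ e, ends e = s(a e, b e))
    (hb : Bridgeless ends) (S : Finset V) : (univ.filter fun e =>
      (a e ∈ S ∧ b e ∉ S) ∨ (b e ∈ S ∧ a e ∉ S)).card ≠ 1 := by
  classical
  intro h1
  obtain ⟨e, he⟩ := Finset.card_eq_one.1 h1
  have hmem : ∀ g, ((a g ∈ S ∧ b g ∉ S) ∨ (b g ∈ S ∧ a g ∉ S)) ↔ g = e := by
    intro g
    have : g ∈ (univ.filter fun e => (a e ∈ S ∧ b e ∉ S) ∨ (b e ∈ S ∧ a e ∉ S)) ↔ g ∈ ({e} : Finset E) := by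
      rw [he]
    simpa using this
  obtain ⟨T, heT, hT⟩ := hb e
  let x : E → ZMod 2 := fun g => if g ∈ T then 1 else 0
  have hxT : {g | x g = 1} = T := by
    ext g
    by_cases hg : g ∈ T <;> simp [x, hg]
  rw [← hxT, even_iff ends a b h] at hT
  have h2 : x e = 0 := by
    refine cut_one a b x hT S e ((hmem e).2 rfl) ?_
    intro g hg hgS
    exact absurd ((hmem g).1 hgS) hg
  simp [x, heT] at h2

/-- a flow modulo three is carried by two even sets -/
lemma split (a b : E → V) (ψ : E → ZMod 3) (hψ : ∀ v, bdry a b ψ v = 0) :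
    ∃ A₁ A₂ : E → ZMod 2, (∀ v, bdry a b A₁ v = 0) ∧ (∀ v, bdry a b A₂ v = 0) ∧
      ∀ e, ψ e = 0 ↔ (A₁ e = 0 ∧ A₂ e = 0) := by
  obtain ⟨f, hf, hfψ, hf3⟩ := lift 3 (by norm_num) a b ψ hψ
  have h1 : ∀ v, bdry a b (fun e => ((f e : ℤ) : ZMod 2)) v = 0 := by
    intro v
    have h5 := bdry_hom (Int.castAddHom (ZMod 2)) a b f v
    simp only [Int.coe_castAddHom] at h5
    rw [h5, hf v, Int.cast_zero]
  obtain ⟨g, hg, hgf, hg2⟩ := lift 2 (by norm_num) a b _ h1
  have hpar : ∀ e, ∃ h : ℤ, f e + g e = 2 * h := by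
    intro e
    have h3 : ((f e + g e : ℤ) : ZMod 2) = 0 := by
      rw [Int.cast_add, hgf e]
      generalize ((f e : ℤ) : ZMod 2) = z
      revert z
      decide
    have h4 := (ZMod.intCast_zmod_eq_zero_iff_dvd _ 2).1 h3
    exact h4
  choose k hk using hpar
  have hk0 : ∀ v, bdry a b k v = 0 := by
    intro v
    have h3 : (2 : ℤ) * bdry a b k v = 0 := by
      rw [← bdry_mul]
      have : (fun e => 2 * k e) = fun e => f e + g e := by
        funext e
        exact (hk e).symm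
      rw [this, bdry_add, hf v, hg v, add_zero]
    omega
  refine ⟨fun e => ((f e : ℤ) : ZMod 2), fun e => ((k e : ℤ) : ZMod 2), h1, ?_, ?_⟩
  · intro v
    have h5 := bdry_hom (Int.castAddHom (ZMod 2)) a b k v
    simp only [Int.coe_castAddHom] at h5
    rw [h5, hk0 v, Int.cast_zero]
  · intro e
    have e1 := hf3 e
    have e2 := hg2 e
    have e3 := hk e
    have e4 := hgf e
    rw [← hfψ e]
    dsimp only
    rw [(ZMod.intCast_zmod_eq_zero_iff_dvd (f e) 3), (ZMod.intCast_zmod_eq_zero_iff_dvd (f e) 2),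
      (ZMod.intCast_zmod_eq_zero_iff_dvd (k e) 2)]
    rw [← sub_eq_zero, ← Int.cast_sub, ZMod.intCast_zmod_eq_zero_iff_dvd (g e - f e) 2] at e4
    push_cast at e1 e2 e4 ⊢
    omega

/-- the ten triples made from `C`, `A₁`, `A₂` -/
def tri (j : Fin 10) (c x y : ZMod 2) : Fin 3 → ZMod 2 :=
  if j = 0 then ![c, x + c, y + c] else if j = 1 then ![c, y + c, x + y + c]
  else if j = 2 then ![c, x + y + c, x + c] else ![x + c, y + c, x + y + c]

lemma tri_cover : ∀ (j : Fin 10) (c x y : ZMod 2), (c = 0 → ¬ (x = 0 ∧ y = 0)) →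
    ∃ i, tri j c x y i = 1 := by
  decide

/-- how often an edge of each kind is covered by the ten triples -/
lemma tri_count : ∀ c x y : ZMod 2,
    (∑ j : Fin 10, ∑ i : Fin 3, (if tri j c x y i = 1 then 1 else 0)) =
      (if c = 0 then (if x = 0 ∧ y = 0 then 0 else 18) else (if x = 0 ∧ y = 0 then 30 else 12)) := by
  decide

lemma three_count : ∀ p q : ZMod 3, q ≠ 0 →
    ∑ ε : Fin 3, (if p + (ε.1 : ZMod 3) * q = 0 then 30 else 12) = 54 := by
  decide

/-- main construction -/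
theorem thirty (a b : E → V)
    (hbr : ∀ S : Finset V, (univ.filter fun e =>
      (a e ∈ S ∧ b e ∉ S) ∨ (b e ∈ S ∧ a e ∉ S)).card ≠ 1) :
    ∃ D : Fin 3 → Fin 10 → Fin 3 → E → ZMod 2, (∀ ε j i v, bdry a b (D ε j i) v = 0) ∧
      (∀ ε j e, ∃ i, D ε j i e = 1) ∧
      ∀ e, ∑ ε, ∑ j, ∑ i, (if D ε j i e = 1 then 1 else 0) = 54 := by
  obtain ⟨C, φ, hC, hφ, hCφ⟩ := seymour a b hbr
  obtain ⟨χ, hχ, hχC, hχ2⟩ := lift 2 (by norm_num) a b C hC
  have hχ3 : ∀ e, C e ≠ 0 → ((χ e : ℤ) : ZMod 3) ≠ 0 := by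
    intro e he h0
    have e2 := hχ2 e
    have h1 := (ZMod.intCast_zmod_eq_zero_iff_dvd (χ e) 3).1 h0
    have h2 : χ e = 0 := by
      push_cast at e2 h1
      omega
    apply he
    rw [← hχC e, h2, Int.cast_zero]
  have hχ0 : ∀ e, C e = 0 → χ e = 0 := by
    intro e he
    have e2 := hχ2 e
    have h1 := (ZMod.intCast_zmod_eq_zero_iff_dvd (χ e) 2).1 (by rw [hχC e, he])
    push_cast at e2 h1
    omega
  have hs : ∀ ε : Fin 3, ∃ A₁ A₂ : E → ZMod 2, (∀ v, bdry a b A₁ v = 0) ∧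
      (∀ v, bdry a b A₂ v = 0) ∧
      ∀ e, φ e + (ε.1 : ZMod 3) * ((χ e : ℤ) : ZMod 3) = 0 ↔ (A₁ e = 0 ∧ A₂ e = 0) := by
    intro ε
    refine split a b (fun e => φ e + (ε.1 : ZMod 3) * ((χ e : ℤ) : ZMod 3)) ?_
    intro v
    rw [bdry_add, hφ v, bdry_mul]
    have h5 := bdry_hom (Int.castAddHom (ZMod 3)) a b χ v
    simp only [Int.coe_castAddHom] at h5
    rw [h5, hχ v, Int.cast_zero, mul_zero, add_zero]
  choose A₁ A₂ hA₁ hA₂ hA using hs
  refine ⟨fun ε j i e => tri j (C e) (A₁ ε e) (A₂ ε e) i, ?_, ?_, ?_⟩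
  · intro ε j i v
    have key : ∀ (c₁ c₂ c₃ : ZMod 2), bdry a b (fun e => c₁ * C e + c₂ * A₁ ε e + c₃ * A₂ ε e) v = 0 := by
      intro c₁ c₂ c₃
      rw [bdry_add, bdry_add, bdry_mul, bdry_mul, bdry_mul, hC v, hA₁ ε v, hA₂ ε v]
      simp
    have hlin : ∃ c₁ c₂ c₃ : ZMod 2, ∀ c x y, tri j c x y i = c₁ * c + c₂ * x + c₃ * y := by
      revert j i
      decide
    obtain ⟨c₁, c₂, c₃, hc⟩ := hlin
    have : (fun e => tri j (C e) (A₁ ε e) (A₂ ε e) i) =
        fun e => c₁ * C e + c₂ * A₁ ε e + c₃ * A₂ ε e := by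
      funext e
      exact hc _ _ _
    show bdry a b (fun e => tri j (C e) (A₁ ε e) (A₂ ε e) i) v = 0
    rw [this]
    exact key c₁ c₂ c₃
  · intro ε j e
    refine tri_cover j _ _ _ ?_
    intro hc h0
    have h1 := (hA ε e).2 h0
    rw [hχ0 e hc, Int.cast_zero, mul_zero, add_zero] at h1
    exact hCφ e hc h1
  · intro e
    have h1 : ∀ ε : Fin 3, ∑ j : Fin 10, ∑ i : Fin 3,
        (if tri j (C e) (A₁ ε e) (A₂ ε e) i = 1 then 1 else 0) =
        (if C e = 0 then (if A₁ ε e = 0 ∧ A₂ ε e = 0 then 0 else 18)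
          else (if A₁ ε e = 0 ∧ A₂ ε e = 0 then 30 else 12)) := fun ε => tri_count _ _ _
    rw [Finset.sum_congr rfl fun ε _ => h1 ε]
    by_cases hc : C e = 0
    · have h2 : ∀ ε : Fin 3, (if C e = 0 then (if A₁ ε e = 0 ∧ A₂ ε e = 0 then 0 else 18)
          else (if A₁ ε e = 0 ∧ A₂ ε e = 0 then 30 else 12)) = 18 := by
        intro ε
        rw [if_pos hc, if_neg]
        intro h0
        have h1 := (hA ε e).2 h0
        rw [hχ0 e hc, Int.cast_zero, mul_zero, add_zero] at h1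
        exact hCφ e hc h1
      rw [Finset.sum_congr rfl fun ε _ => h2 ε]
      rfl
    · have h2 : ∀ ε : Fin 3, (if C e = 0 then (if A₁ ε e = 0 ∧ A₂ ε e = 0 then 0 else 18)
          else (if A₁ ε e = 0 ∧ A₂ ε e = 0 then 30 else 12)) =
          (if φ e + (ε.1 : ZMod 3) * ((χ e : ℤ) : ZMod 3) = 0 then 30 else 12) := by
        intro ε
        rw [if_neg hc]
        simp only [hA ε e]
      rw [Finset.sum_congr rfl fun ε _ => h2 ε]
      exact three_count _ _ (hχ3 e hc)

end Pool.Agent.Lib.MP_5ee2e8_co_h71
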